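import Mathlib

namespace Pool.Agent.Results.MP_8ae77a_co.CommonPartitions

open Finset SimpleGraph

/-- A semilabeled binary tree of size `n`: a finite tree with all degrees `1` or `3` whose leaves
are labelled bijectively by `Fin n`. -/
structure BTree (n : ℕ) where
  m : ℕ
  G : SimpleGraph (Fin m)
  tree : G.IsTree
  deg : ∀ v, (G.neighborSet v).ncard = 1 ∨ (G.neighborSet v).ncard = 3
  leaf : Fin n → Fin m
  leaf_inj : Function.Injective leaf
  leaf_range : ∀ v, (G.neighborSet v).ncard = 1 ↔ ∃ i, leaf i = v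

/-- The partitions of the labels (as equivalence relations) induced by deleting a set of edges. -/
def induced {n : ℕ} (T : BTree n) : Set (Setoid (Fin n)) :=
  {s | ∃ F : Set (Sym2 (Fin T.m)), F ⊆ T.G.edgeSet ∧
    ∀ i j, s i j ↔ (T.G.deleteEdges F).Reachable (T.leaf i) (T.leaf j)}

/-- The partitions with exactly `k` classes induced by each tree of the collection. -/
def common {t n : ℕ} (T : Fin t → BTree n) (k : ℕ) : Set (Setoid (Fin n)) :=
  {s | (∀ a, s ∈ induced (T a)) ∧ Nat.card (Quotient s) = k}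

section graph

variable {V : Type} {G : SimpleGraph V}

theorem reach_ind {P : V → Prop} {u : V} (h0 : P u)
    (hs : ∀ x y, G.Reachable u x → P x → G.Adj x y → P y) {x : V} (h : G.Reachable u x) : P x := by
  rw [reachable_iff_reflTransGen] at h
  induction h with
  | refl => exact h0
  | tail h1 h2 ih => exact hs _ _ ((reachable_iff_reflTransGen _ _).mpr h1) ih h2

theorem pend (Z : Set V) (hZ : ∀ z ∈ Z, ∀ w w', G.Adj z w → G.Adj z w' → w = w') {x y : V}
    (hx : x ∉ Z) (hy : y ∉ Z) (h : G.Reachable x y) :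
    (G.deleteEdges {e | ∃ z ∈ Z, z ∈ e}).Reachable x y := by
  have key : ∀ y, G.Reachable x y →
      (y ∉ Z → (G.deleteEdges {e | ∃ z ∈ Z, z ∈ e}).Reachable x y) ∧
      (y ∈ Z → ∀ w, G.Adj y w → w ∉ Z → (G.deleteEdges {e | ∃ z ∈ Z, z ∈ e}).Reachable x w) := by
    intro y hy
    refine reach_ind (P := fun y =>
      (y ∉ Z → (G.deleteEdges {e | ∃ z ∈ Z, z ∈ e}).Reachable x y) ∧
      (y ∈ Z → ∀ w, G.Adj y w → w ∉ Z → (G.deleteEdges {e | ∃ z ∈ Z, z ∈ e}).Reachable x w))
      ⟨fun _ => Reachable.refl _, fun h => absurd h hx⟩ ?_ hy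
    intro a b _ ih hab
    refine ⟨fun hb => ?_, fun hb w hw hwZ => ?_⟩
    · by_cases ha : a ∈ Z
      · exact ih.2 ha b hab hb
      · refine (ih.1 ha).trans (Adj.reachable ?_)
        rw [deleteEdges_adj]
        refine ⟨hab, ?_⟩
        rintro ⟨z, hz, hz'⟩
        rcases Sym2.mem_iff.mp hz' with rfl | rfl
        · exact ha hz
        · exact hb hz
    · have := hZ b hb w a hw hab.symm
      subst this
      exact ih.1 hwZ
  exact (key y h).1 hy

theorem pend_iso (Z : Set V) {z y : V} (hz : z ∈ Z)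
    (h : (G.deleteEdges {e | ∃ z ∈ Z, z ∈ e}).Reachable z y) : y = z := by
  refine reach_ind (P := fun y => y = z) rfl ?_ h
  rintro a b _ rfl hab
  rw [deleteEdges_adj] at hab
  exact absurd ⟨a, hz, Sym2.mem_mk_left _ _⟩ hab.2

/-- the side of `u` after deleting the edge `u v`. -/
def side (G : SimpleGraph V) (u v : V) : Set V := {x | (G.deleteEdges {s(u, v)}).Reachable u x}

theorem side_cover (hc : G.Preconnected) (u v x : V) : x ∈ side G u v ∨ x ∈ side G v u := by
  refine reach_ind (P := fun x => x ∈ side G u v ∨ x ∈ side G v u) (Or.inl (Reachable.refl _))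
    ?_ (hc u x)
  intro a b _ ih hab
  by_cases he : s(a, b) = s(u, v)
  · rcases Sym2.eq_iff.mp he with ⟨_, rfl⟩ | ⟨_, rfl⟩
    · exact Or.inr (Reachable.refl _)
    · exact Or.inl (Reachable.refl _)
  · rcases ih with ih | ih
    · exact Or.inl (Reachable.trans ih (Adj.reachable (deleteEdges_adj.mpr ⟨hab, he⟩)))
    · refine Or.inr (Reachable.trans ih (Adj.reachable (deleteEdges_adj.mpr ⟨hab, ?_⟩)))
      rwa [Sym2.eq_swap (a := v)]

theorem side_bridge (ha : G.IsAcyclic) {u v : V} (h : G.Adj u v) : v ∉ side G u v :=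
  isBridge_iff.mp (isAcyclic_iff_forall_adj_isBridge.mp ha h)

theorem side_sub (ha : G.IsAcyclic) {u v w : V} (h : G.Adj w u) (hw : w ≠ v) :
    side G w u ⊆ side G u v := by
  intro x hx
  refine reach_ind (P := fun x => x ∈ side G u v) ?_ ?_ hx
  · refine Adj.reachable (deleteEdges_adj.mpr ⟨h.symm, fun he => ?_⟩)
    rcases Sym2.eq_iff.mp he with ⟨_, h2⟩ | ⟨_, h2⟩
    · exact hw h2
    · exact h.ne h2
  · intro a b hr ih hab
    refine Reachable.trans ih (Adj.reachable (deleteEdges_adj.mpr ⟨(deleteEdges_adj.mp hab).1,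
      fun he => side_bridge ha h ?_⟩))
    rcases Sym2.eq_iff.mp he with ⟨rfl, _⟩ | ⟨_, rfl⟩
    · exact hr
    · exact hr.trans hab.reachable

theorem side_split {u v x : V} (hx : x ∈ side G u v) :
    x = u ∨ ∃ w, G.Adj u w ∧ w ≠ v ∧ x ∈ side G w u := by
  refine reach_ind (P := fun x => x = u ∨ ∃ w, G.Adj u w ∧ w ≠ v ∧ x ∈ side G w u)
    (Or.inl rfl) ?_ hx
  intro a b _ ih hab
  obtain ⟨h1, h2⟩ := deleteEdges_adj.mp hab
  rcases ih with rfl | ⟨w, hw1, hw2, hw3⟩
  · exact Or.inr ⟨b, h1, fun h => h2 (by rw [h]; rfl), Reachable.refl _⟩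
  · by_cases he : s(a, b) = s(w, u)
    · rcases Sym2.eq_iff.mp he with ⟨_, rfl⟩ | ⟨_, rfl⟩
      · exact Or.inl rfl
      · exact Or.inr ⟨b, hw1, hw2, Reachable.refl _⟩
    · exact Or.inr ⟨w, hw1, hw2, Reachable.trans hw3 (Adj.reachable (deleteEdges_adj.mpr ⟨h1, he⟩))⟩

end graph

/-- `A` and `B` are separated by an edge of `T`. -/
def Sep {n : ℕ} (T : BTree n) (A B : Finset (Fin n)) : Prop :=
  ∃ u v, T.G.Adj u v ∧ (∀ a ∈ A, T.leaf a ∈ side T.G u v) ∧ ∀ b ∈ B, T.leaf b ∈ side T.G v u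

theorem sep_step {n : ℕ} (T : BTree n) (θ : ℕ) (hθ : 1 ≤ θ) (A B : Finset (Fin n))
    (hA : 3 * θ ≤ A.card) (hB : 3 * θ ≤ B.card) :
    ∃ A' ⊆ A, ∃ B' ⊆ B, θ ≤ A'.card ∧ θ ≤ B'.card ∧ Sep T A' B' := by
  classical
  let cnt : Finset (Fin n) → Fin T.m → Fin T.m → ℕ := fun X u v =>
    (X.filter fun a => T.leaf a ∈ side T.G u v).card
  have hcov : ∀ X u v, X.card ≤ cnt X u v + cnt X v u := by
    intro X u v
    refine le_trans (Finset.card_le_card fun a ha => ?_) (Finset.card_union_le _ _)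
    rcases side_cover T.tree.connected.preconnected u v (T.leaf a) with h | h
    · exact Finset.mem_union_left _ (Finset.mem_filter.mpr ⟨ha, h⟩)
    · exact Finset.mem_union_right _ (Finset.mem_filter.mpr ⟨ha, h⟩)
  let D := univ.filter fun p : Fin T.m × Fin T.m =>
    T.G.Adj p.1 p.2 ∧ (θ ≤ cnt A p.1 p.2 ∨ θ ≤ cnt B p.1 p.2)
  have hD : D.Nonempty := by
    obtain ⟨u⟩ := T.tree.connected.nonempty
    obtain ⟨v, hv⟩ : (T.G.neighborSet u).Nonempty :=
      Set.nonempty_of_ncard_ne_zero (by rcases T.deg u with h | h <;> omega)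
    have := hcov A u v
    by_cases h : θ ≤ cnt A u v
    · exact ⟨(u, v), Finset.mem_filter.mpr ⟨Finset.mem_univ _, hv, Or.inl h⟩⟩
    · exact ⟨(v, u), Finset.mem_filter.mpr ⟨Finset.mem_univ _, hv.symm, Or.inl (by
        show θ ≤ cnt A v u; omega)⟩⟩
  obtain ⟨⟨u, v⟩, hp, hmin⟩ := D.exists_min_image (fun p => (side T.G p.1 p.2).ncard) hD
  obtain ⟨-, huv, hbig⟩ := Finset.mem_filter.mp hp
  have hsmall : ∀ w, T.G.Adj u w → w ≠ v → cnt A w u < θ ∧ cnt B w u < θ := by
    intro w hw hwv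
    by_contra hc
    have := hmin (w, u) (Finset.mem_filter.mpr ⟨Finset.mem_univ _, hw.symm, by
      show θ ≤ cnt A w u ∨ θ ≤ cnt B w u; omega⟩)
    refine absurd this (not_le.mpr (Set.ncard_lt_ncard ⟨side_sub T.tree.isAcyclic hw.symm hwv,
      fun hs => side_bridge T.tree.isAcyclic hw.symm (hs (Reachable.refl _))⟩ (Set.toFinite _)))
  have hup : ∀ X, (∀ w, T.G.Adj u w → w ≠ v → cnt X w u < θ) → cnt X u v < 2 * θ := by
    intro X hX
    rcases T.deg u with h | h
    · obtain ⟨z, hz⟩ := Set.ncard_eq_one.mp h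
      have : cnt X u v ≤ 1 := by
        refine Finset.card_le_one.mpr fun a ha b hb => T.leaf_inj ?_
        have key : ∀ x ∈ side T.G u v, x = u := by
          intro x hx
          rcases side_split hx with h | ⟨w, hw1, hw2, _⟩
          · exact h
          · have h1 : w ∈ T.G.neighborSet u := hw1
            have h2 : v ∈ T.G.neighborSet u := huv
            rw [hz] at h1 h2
            exact absurd (h1.trans h2.symm) hw2
        rw [key _ (Finset.mem_filter.mp ha).2, key _ (Finset.mem_filter.mp hb).2]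
      omega
    · have h2 : (T.G.neighborSet u \ {v}).ncard = 2 := by
        rw [Set.ncard_sdiff_singleton_of_mem (show v ∈ T.G.neighborSet u from huv), h]
      obtain ⟨w1, w2, -, hw⟩ := Set.ncard_eq_two.mp h2
      have m1 : w1 ∈ T.G.neighborSet u \ {v} := by rw [hw]; simp
      have m2 : w2 ∈ T.G.neighborSet u \ {v} := by rw [hw]; simp
      have : cnt X u v ≤ cnt X w1 u + cnt X w2 u := by
        refine le_trans (Finset.card_le_card fun a ha => ?_) (Finset.card_union_le _ _)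
        obtain ⟨ha1, ha2⟩ := Finset.mem_filter.mp ha
        rcases side_split ha2 with h' | ⟨w, hw1, hw2, hw3⟩
        · have := (T.leaf_range u).mpr ⟨a, h'⟩
          omega
        · have : w ∈ T.G.neighborSet u \ {v} := ⟨hw1, hw2⟩
          rw [hw] at this
          rcases this with rfl | rfl
          · exact Finset.mem_union_left _ (Finset.mem_filter.mpr ⟨ha1, hw3⟩)
          · exact Finset.mem_union_right _ (Finset.mem_filter.mpr ⟨ha1, hw3⟩)
      have := hX w1 m1.1 m1.2
      have := hX w2 m2.1 m2.2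
      omega
  have hA2 := hup A fun w h1 h2 => (hsmall w h1 h2).1
  have hB2 := hup B fun w h1 h2 => (hsmall w h1 h2).2
  have hA3 := hcov A u v
  have hB3 := hcov B u v
  rcases hbig with h | h
  · refine ⟨_, Finset.filter_subset (fun a => T.leaf a ∈ side T.G u v) A, _,
      Finset.filter_subset (fun a => T.leaf a ∈ side T.G v u) B, h, ?_, u, v, huv,
      fun a ha => (Finset.mem_filter.mp ha).2, fun a ha => (Finset.mem_filter.mp ha).2⟩
    show θ ≤ cnt B v u; omega
  · refine ⟨_, Finset.filter_subset (fun a => T.leaf a ∈ side T.G v u) A, _,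
      Finset.filter_subset (fun a => T.leaf a ∈ side T.G u v) B, ?_, h, v, u, huv.symm,
      fun a ha => (Finset.mem_filter.mp ha).2, fun a ha => (Finset.mem_filter.mp ha).2⟩
    show θ ≤ cnt A v u; omega

theorem sep_all {n : ℕ} (t : ℕ) : ∀ (T : Fin t → BTree n) (θ : ℕ) (_ : 1 ≤ θ)
    (A B : Finset (Fin n)), 3 ^ t * θ ≤ A.card → 3 ^ t * θ ≤ B.card →
    ∃ A' ⊆ A, ∃ B' ⊆ B, θ ≤ A'.card ∧ θ ≤ B'.card ∧ ∀ a, Sep (T a) A' B' := by
  induction t with
  | zero =>
    intro T θ _ A B hA hB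
    exact ⟨A, le_rfl, B, le_rfl, by simpa using hA, by simpa using hB, fun a => a.elim0⟩
  | succ t ih =>
    intro T θ hθ A B hA hB
    obtain ⟨A1, hA1, B1, hB1, cA, cB, hs⟩ := ih (fun a => T a.succ) (3 * θ) (by omega) A B
      (by rw [← mul_assoc, ← pow_succ]; exact hA) (by rw [← mul_assoc, ← pow_succ]; exact hB)
    obtain ⟨A2, hA2, B2, hB2, cA2, cB2, hs2⟩ := sep_step (T 0) θ hθ A1 B1 cA cB
    refine ⟨A2, hA2.trans hA1, B2, hB2.trans hB1, cA2, cB2, fun a => ?_⟩
    refine Fin.cases hs2 (fun a => ?_) a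
    obtain ⟨u, v, h1, h2, h3⟩ := hs a
    exact ⟨u, v, h1, fun x hx => h2 x (hA2 hx), fun x hx => h3 x (hB2 hx)⟩

/-- singletons on `Z`, the rest grouped by the colour `c`. -/
def gz {n : ℕ} (Z : Finset (Fin n)) (c : Fin n → Bool) (i : Fin n) : Fin n ⊕ Bool :=
  if i ∈ Z then .inl i else .inr (c i)

theorem gz_eq {n : ℕ} (Z : Finset (Fin n)) (c : Fin n → Bool) (i j : Fin n) :
    gz Z c i = gz Z c j ↔ i = j ∨ (i ∉ Z ∧ j ∉ Z ∧ c i = c j) := by
  unfold gz
  by_cases hi : i ∈ Z <;> by_cases hj : j ∈ Z <;> simp [hi, hj]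
  · rintro rfl; exact hj hi
  · rintro rfl; exact hi hj
  · rintro rfl; rfl

theorem gz_card {n : ℕ} (Z : Finset (Fin n)) (c : Fin n → Bool) :
    Nat.card (Quotient (Setoid.ker (gz Z c))) = Z.card + (Zᶜ.image c).card := by
  rw [Nat.card_congr (Setoid.quotientKerEquivRange _), ← Finset.card_disjSum]
  have : Set.range (gz Z c) = (Z.disjSum (Zᶜ.image c) : Finset _) := by
    ext x
    rcases x with x | x
    · simp only [Set.mem_range, Finset.mem_coe, Finset.inl_mem_disjSum, gz]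
      constructor
      · rintro ⟨i, hi⟩
        split_ifs at hi with h
        cases hi; exact h
      · intro h; exact ⟨x, if_pos h⟩
    · simp only [Set.mem_range, Finset.mem_coe, Finset.inr_mem_disjSum, gz, Finset.mem_image,
        Finset.mem_compl]
      constructor
      · rintro ⟨i, hi⟩
        split_ifs at hi with h
        cases hi; exact ⟨i, h, rfl⟩
      · rintro ⟨i, h, rfl⟩; exact ⟨i, if_neg h⟩
  rw [this]
  simp

theorem gz_mem {n : ℕ} (T : BTree n) (Z : Finset (Fin n)) (c : Fin n → Bool)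
    (F0 : Set (Sym2 (Fin T.m)))
    (h : ∀ i j, i ∉ Z → j ∉ Z →
      (c i = c j ↔ (T.G.deleteEdges F0).Reachable (T.leaf i) (T.leaf j))) :
    Setoid.ker (gz Z c) ∈ induced T := by
  let Z' : Set (Fin T.m) := T.leaf '' Z
  have hZ' : ∀ i, T.leaf i ∈ Z' ↔ i ∈ Z := fun i => T.leaf_inj.mem_set_image
  refine ⟨(F0 ∪ {e | ∃ z ∈ Z', z ∈ e}) ∩ T.G.edgeSet, Set.inter_subset_right, fun i j => ?_⟩
  have e : T.G.deleteEdges ((F0 ∪ {e | ∃ z ∈ Z', z ∈ e}) ∩ T.G.edgeSet)
      = (T.G.deleteEdges F0).deleteEdges {e | ∃ z ∈ Z', z ∈ e} := by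
    ext a b
    simp only [deleteEdges_adj, Set.mem_inter_iff, Set.mem_union, mem_edgeSet]
    tauto
  rw [e, Setoid.ker_def, gz_eq]
  constructor
  · rintro (rfl | ⟨hi, hj, hc⟩)
    · exact Reachable.refl _
    · refine pend Z' ?_ (by rwa [hZ']) (by rwa [hZ']) ((h i j hi hj).mp hc)
      rintro _ ⟨k, _, rfl⟩ w w' hw hw'
      obtain ⟨z, hz⟩ := Set.ncard_eq_one.mp ((T.leaf_range _).mpr ⟨k, rfl⟩)
      have h1 : w ∈ T.G.neighborSet (T.leaf k) := (deleteEdges_adj.mp hw).1
      have h2 : w' ∈ T.G.neighborSet (T.leaf k) := (deleteEdges_adj.mp hw').1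
      rw [hz] at h1 h2
      exact h1.trans h2.symm
  · intro hr
    by_cases hi : i ∈ Z
    · exact Or.inl (T.leaf_inj (pend_iso Z' ((hZ' i).mpr hi) hr)).symm
    by_cases hj : j ∈ Z
    · exact Or.inl (T.leaf_inj (pend_iso Z' ((hZ' j).mpr hj) hr.symm))
    exact Or.inr ⟨hi, hj, (h i j hi hj).mpr (hr.mono (deleteEdges_le _))⟩

theorem many {t n : ℕ} (T : Fin t → BTree n) (θ : ℕ) (hθ : 2 ≤ θ) (A B : Finset (Fin n))
    (hAB : Disjoint A B) (hA : A.card = θ) (hB : B.card = θ) (hs : ∀ a, Sep (T a) A B) :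
    n.choose (n - 2 * θ + 1) < (common T (n - 2 * θ + 2)).ncard := by
  classical
  have hn : 2 * θ ≤ n := by
    have := Finset.card_le_univ (A ∪ B)
    rw [Finset.card_union_of_disjoint hAB, Fintype.card_fin] at this
    omega
  have hfin : Finite (Setoid (Fin n)) :=
    Finite.of_injective (fun s : Setoid (Fin n) => s.r) fun _ _ h => Setoid.ext fun a b => by
      have := congrFun (congrFun h a) b
      exact iff_of_eq this
  let σ : Finset (Fin n) → Setoid (Fin n) := fun Z => Setoid.ker (gz Z fun _ => false)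
  let P := powersetCard (n - 2 * θ + 1) (univ : Finset (Fin n))
  have hP : ∀ Z ∈ P, 1 < Zᶜ.card := by
    intro Z hZ
    rw [Finset.card_compl, (Finset.mem_powersetCard.mp hZ).2, Fintype.card_fin]; omega
  have hinj : Set.InjOn σ P := by
    have sub : ∀ Z ∈ P, ∀ Z', σ Z = σ Z' → ∀ i, i ∉ Z → i ∉ Z' := by
      intro Z hZ Z' h i hi
      obtain ⟨j, hj, hji⟩ := Finset.exists_mem_ne (hP Z hZ) i
      have h1 : σ Z i j := (gz_eq _ _ _ _).mpr (Or.inr ⟨hi, Finset.mem_compl.mp hj, rfl⟩)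
      rw [h] at h1
      rcases (gz_eq _ _ _ _).mp h1 with h2 | h2
      · exact absurd h2.symm hji
      · exact h2.1
    intro Z hZ Z' hZ' h
    ext i
    exact ⟨fun h1 => not_not.mp fun h2 => sub Z' hZ' Z h.symm i h2 h1,
      fun h1 => not_not.mp fun h2 => sub Z hZ Z' h i h2 h1⟩
  let c : Fin n → Bool := fun i => decide (i ∈ A)
  let τ : Setoid (Fin n) := Setoid.ker (gz (A ∪ B)ᶜ c)
  obtain ⟨a1, ha1, a2, ha2, ha12⟩ := Finset.one_lt_card.mp (show 1 < A.card by omega)
  obtain ⟨b1, hb1, b2, hb2, hb12⟩ := Finset.one_lt_card.mp (show 1 < B.card by omega)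
  have hbA : ∀ b ∈ B, b ∉ A := fun b hb ha => Finset.disjoint_left.mp hAB ha hb
  have hτ : τ ∉ P.image σ := by
    intro h
    obtain ⟨Z, -, hZ⟩ := Finset.mem_image.mp h
    have h1 : τ a1 a2 := (gz_eq _ _ _ _).mpr (Or.inr (by simp [c, ha1, ha2]))
    have h2 : τ b1 b2 := (gz_eq _ _ _ _).mpr (Or.inr (by simp [c, hb1, hb2, hbA]))
    rw [← hZ] at h1 h2
    have h3 := ((gz_eq _ _ _ _).mp h1).resolve_left ha12
    have h4 := ((gz_eq _ _ _ _).mp h2).resolve_left hb12
    have h5 : σ Z a1 b1 := (gz_eq _ _ _ _).mpr (Or.inr ⟨h3.1, h4.1, rfl⟩)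
    rw [hZ] at h5
    rcases (gz_eq _ _ _ _).mp h5 with h6 | h6
    · exact hbA b1 hb1 (h6 ▸ ha1)
    · simp [c, ha1, hbA b1 hb1] at h6
  have hsub : ((insert τ (P.image σ) : Finset _) : Set _) ⊆ common T (n - 2 * θ + 2) := by
    intro s hs'
    rcases Finset.mem_insert.mp hs' with rfl | hs'
    · refine ⟨fun a => ?_, ?_⟩
      · obtain ⟨u, v, huv, h1, h2⟩ := hs a
        have h2' : ∀ b ∈ B, ((T a).G.deleteEdges {s(u, v)}).Reachable v ((T a).leaf b) := by
          intro b hb; rw [Sym2.eq_swap]; exact h2 b hb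
        have hbr := side_bridge (T a).tree.isAcyclic huv
        refine gz_mem _ _ _ {s(u, v)} fun i j hi hj => ?_
        rw [Finset.notMem_compl, Finset.mem_union] at hi hj
        rcases hi with hi | hi <;> rcases hj with hj | hj
        · exact iff_of_true (by simp [c, hi, hj]) (Reachable.trans (Reachable.symm (h1 i hi)) (h1 j hj))
        · exact iff_of_false (by simp [c, hi, hbA j hj]) fun hr =>
            hbr (Reachable.trans (Reachable.trans (h1 i hi) hr) (h2' j hj).symm)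
        · exact iff_of_false (by simp [c, hj, hbA i hi]) fun hr =>
            hbr (Reachable.trans (Reachable.trans (h1 j hj) hr.symm) (h2' i hi).symm)
        · exact iff_of_true (by simp [c, hbA i hi, hbA j hj]) ((h2' i hi).symm.trans (h2' j hj))
      · rw [gz_card, compl_compl, Finset.card_compl, Finset.card_union_of_disjoint hAB, hA, hB,
          Fintype.card_fin]
        have : (A ∪ B).image c = univ := by
          ext x
          simp only [Finset.mem_image, Finset.mem_univ, iff_true]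
          cases x
          · exact ⟨b1, by simp [hb1], by simp [c, hbA b1 hb1]⟩
          · exact ⟨a1, by simp [ha1], by simp [c, ha1]⟩
        rw [this]; simp; omega
    · obtain ⟨Z, hZ, rfl⟩ := Finset.mem_image.mp hs'
      refine ⟨fun a => gz_mem _ _ _ ∅ fun i j _ _ => iff_of_true rfl ?_, ?_⟩
      · rw [deleteEdges_empty]; exact (T a).tree.connected.preconnected _ _
      · rw [gz_card, Finset.image_const (Finset.card_pos.mp (by have := hP Z hZ; omega)),
          (Finset.mem_powersetCard.mp hZ).2, Finset.card_singleton]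
  have := Set.ncard_le_ncard hsub (Set.toFinite _)
  rw [Set.ncard_coe_finset, Finset.card_insert_of_notMem hτ, Finset.card_image_of_injOn hinj,
    Finset.card_powersetCard, Finset.card_univ, Fintype.card_fin] at this
  exact this

theorem result (t : ℕ) (f : ℕ → ℕ)
    (hf : Asymptotics.IsLittleO Filter.atTop (fun n => (f n : ℝ)) (fun n => (n : ℝ))) :
    ∃ n k : ℕ, 1 ≤ k ∧ k + f n < n ∧
      ∀ T : Fin t → BTree n, n.choose (k - 1) < (common T k).ncard := by
  classical
  have hc : (0 : ℝ) < 1 / (2 * 3 ^ t) := by positivity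
  obtain ⟨N, hN⟩ := Filter.eventually_atTop.mp (hf.def hc)
  have h3 : 1 ≤ 3 ^ t := Nat.one_le_pow _ _ (by norm_num)
  let θ := N + 3
  let M := 3 ^ t * θ
  have hM : θ ≤ M := Nat.le_mul_of_pos_left _ h3
  have hfn : f (M + M) ≤ θ := by
    have := hN (M + M) (by omega)
    rw [Real.norm_natCast, Real.norm_natCast] at this
    have e : (1 : ℝ) / (2 * 3 ^ t) * ((M + M : ℕ) : ℝ) = (θ : ℕ) := by
      simp only [M]; push_cast; field_simp; ring
    rw [e] at this
    exact_mod_cast this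
  refine ⟨M + M, M + M - 2 * θ + 2, by omega, by omega, fun T => ?_⟩
  let A0 : Finset (Fin (M + M)) := univ.map ⟨Fin.castAdd M, Fin.castAdd_injective _ _⟩
  obtain ⟨A1, hA1, B1, hB1, cA, cB, hs⟩ := sep_all t T θ (by omega) A0 A0ᶜ (by simp [A0, M])
    (by simp [A0, M, Finset.card_compl])
  obtain ⟨A, hA, cA'⟩ := Finset.exists_subset_card_eq cA
  obtain ⟨B, hB, cB'⟩ := Finset.exists_subset_card_eq cB
  refine many T θ (by omega) A B ?_ cA' cB' fun a => ?_
  · exact Finset.disjoint_left.mpr fun x h1 h2 =>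
      Finset.mem_compl.mp (hB1 (hB h2)) (hA1 (hA h1))
  · obtain ⟨u, v, h1, h2, h3⟩ := hs a
    exact ⟨u, v, h1, fun x hx => h2 x (hA hx), fun x hx => h3 x (hB hx)⟩

end Pool.Agent.Results.MP_8ae77a_co.CommonPartitions
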